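import Pool.Agent.helper95.FR.Spec

set_option autoImplicit false

namespace Pool.Agent.helper95.FR

open scoped commutatorElement

universe u

theorem SLI_X_pow (n : ℕ) (hn : 0 < n) : (RatFunc.X : RatFunc (ZMod 2)) ^ n ≠ 1 := by
  intro h
  have h1 : (Polynomial.X : Polynomial (ZMod 2)) ^ n = 1 := by
    apply RatFunc.algebraMap_injective (ZMod 2)
    rw [map_pow, RatFunc.algebraMap_X, h, map_one]
  have h2 : ((Polynomial.X : Polynomial (ZMod 2)) ^ n).natDegree = n := Polynomial.natDegree_X_pow n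
  rw [h1, Polynomial.natDegree_one] at h2
  omega

theorem SLI_entry {F : Type} [Field F] (t : F) (x : Matrix.SpecialLinearGroup (Fin 2) F)
    (hx : (x : Matrix (Fin 2) (Fin 2) F) = !![t, 0; 0, t⁻¹]) (n : ℕ) :
    ((x ^ n : Matrix.SpecialLinearGroup (Fin 2) F) : Matrix (Fin 2) (Fin 2) F) 0 0 = t ^ n ∧
    ((x ^ n : Matrix.SpecialLinearGroup (Fin 2) F) : Matrix (Fin 2) (Fin 2) F) 0 1 = 0 := by
  induction n with
  | zero => simp
  | succ n ih =>
    rw [pow_succ, Matrix.SpecialLinearGroup.coe_mul, Matrix.mul_apply, Matrix.mul_apply,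
      Fin.sum_univ_two, Fin.sum_univ_two, ih.1, ih.2, hx, pow_succ]
    simp

theorem SLI : SLI_stmt := by
  haveI h1 : CharP (RatFunc (ZMod 2)) 2 :=
    charP_of_injective_algebraMap (algebraMap (ZMod 2) (RatFunc (ZMod 2))).injective 2
  haveI h2 : CharP (AlgebraicClosure (RatFunc (ZMod 2))) 2 :=
    charP_of_injective_algebraMap
      (algebraMap (RatFunc (ZMod 2)) (AlgebraicClosure (RatFunc (ZMod 2)))).injective 2
  refine ⟨AlgebraicClosure (RatFunc (ZMod 2)), inferInstance, inferInstance, h2, ?_⟩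
  set t : AlgebraicClosure (RatFunc (ZMod 2)) := algebraMap (RatFunc (ZMod 2)) _ RatFunc.X with ht
  have htn : ∀ n : ℕ, 0 < n → t ^ n ≠ 1 := by
    intro n hn h
    apply SLI_X_pow n hn
    apply (algebraMap (RatFunc (ZMod 2)) (AlgebraicClosure (RatFunc (ZMod 2)))).injective
    rw [map_pow, map_one]
    exact h
  have ht0 : t ≠ 0 := by
    rw [ht]
    intro h
    exact RatFunc.X_ne_zero ((map_eq_zero _).mp h)
  let x : Matrix.SpecialLinearGroup (Fin 2) (AlgebraicClosure (RatFunc (ZMod 2))) :=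
    ⟨!![t, 0; 0, t⁻¹], by rw [Matrix.det_fin_two_of, mul_inv_cancel₀ ht0]; ring⟩
  refine ⟨Subgroup.zpowers x, ?_, ?_⟩
  · rw [Subgroup.zpowers_eq_closure]
    exact ⟨{x}, by rw [Finset.coe_singleton]⟩
  · intro hf
    have hfin : IsOfFinOrder x := by
      rw [← finite_zpowers]
      exact Set.toFinite _
    rw [isOfFinOrder_iff_pow_eq_one] at hfin
    obtain ⟨n, hn, hxn⟩ := hfin
    have h3 := (SLI_entry t x rfl n).1
    rw [hxn] at h3
    apply htn n hn
    rw [← h3]
    simp

end Pool.Agent.helper95.FR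

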